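import Pool.Agent.Helper63.GW.StA

/-!
# Project GW, module HBI (Heath-Brown's identity of order four, pointwise)
-/

set_option autoImplicit false

namespace Pool.Agent.Helper47.GW

open Finset ArithmeticFunction
open Pool.Agent.Helper63.GW

/-- tuples of divisors with product `n` -/
private noncomputable def tu (k n : ℕ) : Finset (Fin k → ℕ) :=
  (Fintype.piFinset (fun _ : Fin k => n.divisors)).filter (fun x => ∏ i, x i = n)

private theorem mem_tu {k n : ℕ} (hn : n ≠ 0) {x : Fin k → ℕ} :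
    x ∈ tu k n ↔ ∏ i, x i = n := by
  classical
  unfold tu
  rw [mem_filter, Fintype.mem_piFinset]
  constructor
  · exact fun h => h.2
  · intro h
    refine ⟨fun i => ?_, h⟩
    rw [Nat.mem_divisors]
    exact ⟨h ▸ Finset.dvd_prod_of_mem x (mem_univ i), hn⟩

private theorem prod_tu (k : ℕ) : ∀ (F : Fin k → ArithmeticFunction ℝ) (n : ℕ), n ≠ 0 →
    (∏ i, F i) n = ∑ x ∈ tu k n, ∏ i, F i (x i) := by
  classical
  induction k with
  | zero =>
    intro F n hn
    rw [Finset.univ_eq_empty, Finset.prod_empty, one_apply]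
    by_cases h : n = 1
    · subst h
      rw [if_pos rfl]
      have : tu 0 1 = {fun i => i.elim0} := by
        ext x
        rw [mem_tu one_ne_zero, mem_singleton]
        simp only [Finset.univ_eq_empty, Finset.prod_empty, true_iff]
        funext i
        exact i.elim0
      rw [this, Finset.sum_singleton, Finset.prod_empty]
    · rw [if_neg h]
      have : tu 0 n = ∅ := by
        ext x
        rw [mem_tu hn]
        simp only [Finset.univ_eq_empty, Finset.prod_empty, notMem_empty, iff_false]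
        exact fun h' => h h'.symm
      rw [this, Finset.sum_empty]
  | succ k ih =>
    intro F n hn
    rw [Fin.prod_univ_succ, mul_apply]
    have h1 : ∀ p ∈ n.divisorsAntidiagonal, F 0 p.1 * (∏ i : Fin k, F i.succ) p.2 =
        ∑ y ∈ tu k p.2, F 0 p.1 * ∏ i : Fin k, F i.succ (y i) := by
      intro p hp
      rw [Nat.mem_divisorsAntidiagonal] at hp
      have hp2 : p.2 ≠ 0 := by
        rintro h0
        rw [h0, mul_zero] at hp
        exact hp.2 hp.1.symm
      rw [ih (fun i => F i.succ) p.2 hp2, Finset.mul_sum]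
    rw [Finset.sum_congr rfl h1, Finset.sum_sigma']
    refine Finset.sum_bij' (fun s _ => Fin.cons s.1.1 s.2)
      (fun x _ => ⟨(x 0, ∏ i : Fin k, x i.succ), fun i => x i.succ⟩) ?_ ?_ ?_ ?_ ?_
    · rintro ⟨p, y⟩ hs
      rw [mem_sigma] at hs
      obtain ⟨hp, hy⟩ := hs
      rw [Nat.mem_divisorsAntidiagonal] at hp
      have hp2 : p.2 ≠ 0 := by
        rintro h0
        rw [h0, mul_zero] at hp
        exact hp.2 hp.1.symm
      rw [mem_tu hp2] at hy
      rw [mem_tu hn, Fin.prod_univ_succ]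
      simp only [Fin.cons_zero, Fin.cons_succ]
      simp only at hy
      rw [hy]
      exact hp.1
    · intro x hx
      rw [mem_tu hn, Fin.prod_univ_succ] at hx
      rw [mem_sigma]
      have h2 : ∏ i : Fin k, x i.succ ≠ 0 := by
        intro h0
        rw [h0, mul_zero] at hx
        exact hn hx.symm
      constructor
      · rw [Nat.mem_divisorsAntidiagonal]
        exact ⟨hx, hn⟩
      · exact (mem_tu h2).2 rfl
    · rintro ⟨p, y⟩ hs
      rw [mem_sigma] at hs
      obtain ⟨hp, hy⟩ := hs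
      rw [Nat.mem_divisorsAntidiagonal] at hp
      have hp2 : p.2 ≠ 0 := by
        rintro h0
        rw [h0, mul_zero] at hp
        exact hp.2 hp.1.symm
      rw [mem_tu hp2] at hy
      simp only at hy
      simp only [Fin.cons_zero, Fin.cons_succ, hy]
    · intro x _
      funext i
      refine Fin.cases ?_ (fun j => ?_) i
      · simp
      · simp
    · rintro ⟨p, y⟩ _
      rw [Fin.prod_univ_succ]
      simp only [Fin.cons_zero, Fin.cons_succ]

private noncomputable def MM (u : ℕ) : ArithmeticFunction ℝ :=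
  ⟨fun n => if n ≤ 2 ^ u then ((moebius n : ℤ) : ℝ) else 0, by simp⟩

private theorem MM_apply (u n : ℕ) :
    MM u n = if n ≤ 2 ^ u then ((moebius n : ℤ) : ℝ) else 0 := rfl

private noncomputable def mu' : ArithmeticFunction ℝ :=
  ((moebius : ArithmeticFunction ℤ) : ArithmeticFunction ℝ)

private noncomputable def ze : ArithmeticFunction ℝ :=
  ((zeta : ArithmeticFunction ℕ) : ArithmeticFunction ℝ)

private theorem R_zero (u : ℕ) {n : ℕ} (hn : n ≤ 2 ^ u) : (mu' - MM u) n = 0 := by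
  have h1 : (mu' - MM u) n = mu' n - MM u n := rfl
  rw [h1, MM_apply, if_pos hn]
  simp [mu']

/-- the remainder vanishes -/
private theorem rem_zero (u n : ℕ) (h1 : 1 ≤ n) (h2 : n ≤ 2 ^ (4 * u)) :
    ((mu' - MM u) ^ 4 * (ze ^ 3 * log)) n = 0 := by
  have hn : n ≠ 0 := by omega
  have e1 : (mu' - MM u) ^ 4 * (ze ^ 3 * log) =
      ∏ i : Fin 5, (if (i : ℕ) < 4 then mu' - MM u else ze ^ 3 * log) := by
    rw [Fin.prod_univ_five]
    simp
    try ring
  rw [e1, prod_tu 5 _ n hn]
  refine Finset.sum_eq_zero fun x hx => ?_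
  rw [mem_tu hn] at hx
  by_contra hne0
  have hne := Finset.prod_ne_zero_iff.1 hne0
  have hbig : ∀ i : Fin 5, (i : ℕ) < 4 → 2 ^ u < x i := by
    intro i hi
    by_contra hle
    rw [not_lt] at hle
    apply hne i (mem_univ i)
    rw [if_pos hi]
    exact R_zero u hle
  rw [Fin.prod_univ_five] at hx
  have b0 := hbig 0 (by norm_num)
  have b1 := hbig 1 (by norm_num)
  have b2 := hbig 2 (by norm_num)
  have b3 := hbig 3 (by norm_num)
  have b4 : 1 ≤ x 4 := by
    rw [Nat.one_le_iff_ne_zero]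
    intro h0
    rw [h0, mul_zero] at hx
    omega
  have h3 : 2 ^ u * 2 ^ u < x 0 * x 1 := Nat.mul_lt_mul'' b0 b1
  have h4 : 2 ^ u * 2 ^ u * 2 ^ u < x 0 * x 1 * x 2 := Nat.mul_lt_mul'' h3 b2
  have h5 : 2 ^ u * 2 ^ u * 2 ^ u * 2 ^ u < x 0 * x 1 * x 2 * x 3 := Nat.mul_lt_mul'' h4 b3
  have h6 : 2 ^ (4 * u) = 2 ^ u * 2 ^ u * 2 ^ u * 2 ^ u := by
    rw [← pow_add, ← pow_add, ← pow_add]
    congr 1
    ring
  have h7 : x 0 * x 1 * x 2 * x 3 ≤ x 0 * x 1 * x 2 * x 3 * x 4 := Nat.le_mul_of_pos_right _ b4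
  omega

private theorem key (u n : ℕ) (h1 : 1 ≤ n) (h2 : n ≤ 2 ^ (4 * u)) :
    Λ n = 4 * (MM u * log) n - 6 * (MM u ^ 2 * ze * log) n + 4 * (MM u ^ 3 * ze ^ 2 * log) n -
      (MM u ^ 4 * ze ^ 3 * log) n := by
  have hz : (mu' * ze : ArithmeticFunction ℝ) = 1 := coe_moebius_mul_coe_zeta
  have hl : (mu' * log : ArithmeticFunction ℝ) = Λ := moebius_mul_log_eq_vonMangoldt
  have halg : (mu' - MM u) ^ 4 * (ze ^ 3 * log) =
      Λ - (MM u * log + MM u * log + MM u * log + MM u * log) +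
      (MM u ^ 2 * ze * log + MM u ^ 2 * ze * log + MM u ^ 2 * ze * log + MM u ^ 2 * ze * log +
       MM u ^ 2 * ze * log + MM u ^ 2 * ze * log) -
      (MM u ^ 3 * ze ^ 2 * log + MM u ^ 3 * ze ^ 2 * log + MM u ^ 3 * ze ^ 2 * log +
        MM u ^ 3 * ze ^ 2 * log) + MM u ^ 4 * ze ^ 3 * log := by
    have e1 : mu' ^ 4 * (ze ^ 3 * log) = Λ := by
      calc mu' ^ 4 * (ze ^ 3 * log) = (mu' * ze) ^ 3 * (mu' * log) := by ring
        _ = Λ := by rw [hz, hl, one_pow, one_mul]
    have e2 : mu' ^ 3 * ze ^ 3 = 1 := by rw [← mul_pow, hz, one_pow]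
    have e3 : mu' ^ 2 * ze ^ 2 = 1 := by rw [← mul_pow, hz, one_pow]
    calc (mu' - MM u) ^ 4 * (ze ^ 3 * log) = mu' ^ 4 * (ze ^ 3 * log) -
          4 * ((mu' ^ 3 * ze ^ 3) * (MM u * log)) + 6 * ((mu' ^ 2 * ze ^ 2) * (MM u ^ 2 * ze * log)) -
          4 * ((mu' * ze) * (MM u ^ 3 * ze ^ 2 * log)) + MM u ^ 4 * ze ^ 3 * log := by ring
      _ = _ := by
          rw [e1, e2, e3, hz]
          ring
  have h3 := congrArg (fun F : ArithmeticFunction ℝ => F n) halg
  rw [rem_zero u n h1 h2] at h3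
  have h4 : (Λ - (MM u * log + MM u * log + MM u * log + MM u * log) +
      (MM u ^ 2 * ze * log + MM u ^ 2 * ze * log + MM u ^ 2 * ze * log + MM u ^ 2 * ze * log +
       MM u ^ 2 * ze * log + MM u ^ 2 * ze * log) -
      (MM u ^ 3 * ze ^ 2 * log + MM u ^ 3 * ze ^ 2 * log + MM u ^ 3 * ze ^ 2 * log +
        MM u ^ 3 * ze ^ 2 * log) + MM u ^ 4 * ze ^ 3 * log : ArithmeticFunction ℝ) n =
      Λ n - ((MM u * log) n + (MM u * log) n + (MM u * log) n + (MM u * log) n) +
      ((MM u ^ 2 * ze * log) n + (MM u ^ 2 * ze * log) n + (MM u ^ 2 * ze * log) n +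
        (MM u ^ 2 * ze * log) n + (MM u ^ 2 * ze * log) n + (MM u ^ 2 * ze * log) n) -
      ((MM u ^ 3 * ze ^ 2 * log) n + (MM u ^ 3 * ze ^ 2 * log) n + (MM u ^ 3 * ze ^ 2 * log) n +
        (MM u ^ 3 * ze ^ 2 * log) n) + (MM u ^ 4 * ze ^ 3 * log) n := rfl
  rw [h4] at h3
  linarith

/-- the factors as arithmetic functions -/
private noncomputable def GF (u j : ℕ) (i : Fin 8) : ArithmeticFunction ℝ :=
  if (i : ℕ) < 4 then (if (i : ℕ) < j then MM u else 1)
  else if (i : ℕ) = 4 then log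
  else if (i : ℕ) < 4 + j then ze else 1

private theorem GF_apply (u j : ℕ) (i : Fin 8) (m : ℕ) (hm : m ≠ 0) : GF u j i m = vj u j i m := by
  unfold GF vj
  split_ifs with h1 h2 h3 h4 h5 h6 h7 <;>
    first
    | (rw [MM_apply, if_pos (by assumption)])
    | (rw [MM_apply, if_neg (by assumption)])
    | (rw [one_apply, if_pos (by assumption)])
    | (rw [one_apply, if_neg (by assumption)])
    | (exact log_apply)
    | (simp [ze, hm])

private theorem vsum (u j n : ℕ) (hn : n ≠ 0) :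
    ∑ x ∈ (Fintype.piFinset (fun _ : Fin 8 => n.divisors)).filter (fun x => ∏ i, x i = n),
      ∏ i, vj u j i (x i) = (∏ i, GF u j i) n := by
  classical
  rw [prod_tu 8 _ n hn]
  have hE : (Fintype.piFinset (fun _ : Fin 8 => n.divisors)).filter (fun x => ∏ i, x i = n) =
      tu 8 n := by
    unfold tu
    congr
  rw [hE]
  refine Finset.sum_congr rfl fun x hx => Finset.prod_congr rfl fun i _ => ?_
  rw [mem_tu hn] at hx
  rw [GF_apply]
  intro h0
  have : ∏ i, x i = 0 := Finset.prod_eq_zero (mem_univ i) h0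
  omega

open Classical in
theorem hHBI : StHbi := by
  intro u n h1 h2
  have hn : n ≠ 0 := by omega
  have hs : ∀ j, ∑ x ∈ (Fintype.piFinset (fun _ : Fin 8 => n.divisors)).filter
      (fun x => ∏ i, x i = n), ∏ i, vj u j i (x i) = (∏ i, GF u j i) n := by
    intro j
    exact vsum u j n hn
  have hI : Icc (1 : ℕ) 4 = {1, 2, 3, 4} := by decide
  rw [hI]
  rw [Finset.sum_insert (by decide), Finset.sum_insert (by decide), Finset.sum_insert (by decide),
    Finset.sum_singleton, hs, hs, hs, hs, key u n h1 h2]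
  have p1 : ∏ i, GF u 1 i = MM u * log := by
    rw [Fin.prod_univ_eight]
    simp [GF]
  have p2 : ∏ i, GF u 2 i = MM u ^ 2 * ze * log := by
    rw [Fin.prod_univ_eight]
    simp [GF]
    try ring
  have p3 : ∏ i, GF u 3 i = MM u ^ 3 * ze ^ 2 * log := by
    rw [Fin.prod_univ_eight]
    simp [GF]
    try ring
  have p4 : ∏ i, GF u 4 i = MM u ^ 4 * ze ^ 3 * log := by
    rw [Fin.prod_univ_eight]
    simp [GF]
    try ring
  rw [p1, p2, p3, p4]
  have c1 : Nat.choose 4 1 = 4 := rfl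
  have c2 : Nat.choose 4 2 = 6 := rfl
  have c3 : Nat.choose 4 3 = 4 := rfl
  have c4 : Nat.choose 4 4 = 1 := rfl
  rw [c1, c2, c3, c4]
  push_cast
  ring

end Pool.Agent.Helper47.GW
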