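import Pool.Agent.Helper63.GW.StB

/-!
# Project GW, module NQC (convolution and the window functional)
-/

set_option autoImplicit false

namespace Pool.Agent.Helper47.GW

open Finset MeasureTheory
open Pool.Agent.Helper63.GW
open scoped ENNReal

/-- Cauchy's inequality with a weight -/
private theorem csw {k G : ℝ → ℝ≥0∞} (hk : Measurable k) (hG : Measurable G) :
    (∫⁻ x, k x * G x) ^ 2 ≤ (∫⁻ x, k x) * ∫⁻ x, k x * G x ^ 2 := by
  have h1 := ENNReal.lintegral_mul_le_Lp_mul_Lq (volume : Measure ℝ)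
    (Real.HolderConjugate.two_two) (f := fun x => k x ^ (1 / 2 : ℝ))
    (g := fun x => k x ^ (1 / 2 : ℝ) * G x) (hk.pow_const _).aemeasurable
    ((hk.pow_const _).mul hG).aemeasurable
  have e1 : ∀ x, (k x ^ (1 / 2 : ℝ)) * (k x ^ (1 / 2 : ℝ) * G x) = k x * G x := by
    intro x
    rw [← mul_assoc, ← ENNReal.rpow_add_of_nonneg _ _ (by norm_num) (by norm_num)]
    norm_num
  have e2 : ∀ x, (k x ^ (1 / 2 : ℝ)) ^ (2 : ℝ) = k x := by
    intro x
    rw [← ENNReal.rpow_mul]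
    norm_num
  have e3 : ∀ x, (k x ^ (1 / 2 : ℝ) * G x) ^ (2 : ℝ) = k x * G x ^ 2 := by
    intro x
    rw [ENNReal.mul_rpow_of_nonneg _ _ (by norm_num), e2, ENNReal.rpow_two]
  simp only [Pi.mul_apply, e1, e2, e3] at h1
  calc (∫⁻ x, k x * G x) ^ 2 ≤ ((∫⁻ x, k x) ^ (1 / 2 : ℝ) *
        (∫⁻ x, k x * G x ^ 2) ^ (1 / 2 : ℝ)) ^ 2 := by gcongr
    _ = _ := by
      rw [mul_pow, ← ENNReal.rpow_two, ← ENNReal.rpow_two, ← ENNReal.rpow_mul, ← ENNReal.rpow_mul]
      norm_num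

private noncomputable def JJ (W : ℝ) (F : ℝ → ℝ) : ℝ≥0∞ :=
  ∫⁻ c, (∫⁻ s, ENNReal.ofReal (F s * Real.exp (-((s - c) / W) ^ 2))) ^ 2

private theorem meas_FE {F : ℝ → ℝ} (hF : Measurable F) (W : ℝ) :
    Measurable fun z : ℝ × ℝ => ENNReal.ofReal (F z.2 * Real.exp (-((z.2 - z.1) / W) ^ 2)) := by
  have h1 : Measurable fun z : ℝ × ℝ => F z.2 := hF.comp measurable_snd
  have h2 : Measurable fun z : ℝ × ℝ => Real.exp (-((z.2 - z.1) / W) ^ 2) := by
    apply Continuous.measurable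
    fun_prop
  exact (h1.mul h2).ennreal_ofReal

private theorem exp_le (W c s : ℝ) : Real.exp (-((s - c) / W) ^ 2) ≤ 1 :=
  Real.exp_le_one_iff.2 (neg_nonpos.2 (sq_nonneg _))

private theorem NQ_eq {F : ℝ → ℝ} (hF : NF F) {W : ℝ} (hW : 1 ≤ W) :
    NQ W F = (1 / W) * (JJ W F).toReal ∧ JJ W F ≠ ∞ := by
  obtain ⟨hm, h0, -, hi⟩ := hF
  have hI0 : ∫⁻ s, ENNReal.ofReal (F s) < ∞ := hi.lintegral_lt_top
  set Ic : ℝ → ℝ≥0∞ := fun c => ∫⁻ s, ENNReal.ofReal (F s * Real.exp (-((s - c) / W) ^ 2)) with hIc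
  have hIle : ∀ c, Ic c ≤ ∫⁻ s, ENNReal.ofReal (F s) := by
    intro c
    apply lintegral_mono
    intro s
    apply ENNReal.ofReal_le_ofReal
    exact mul_le_of_le_one_right (h0 s) (exp_le W c s)
  have hIm : Measurable Ic := (meas_FE hm W).lintegral_prod_right'
  have hfin : JJ W F ≠ ∞ := by
    have hb : 0 < 1 / W ^ 2 := by positivity
    have hg : ∫⁻ x : ℝ, ENNReal.ofReal (Real.exp (-(1 / W ^ 2) * x ^ 2)) < ∞ :=
      (integrable_exp_neg_mul_sq hb).lintegral_lt_top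
    have hKs : ∀ s : ℝ, ∫⁻ c, ENNReal.ofReal (Real.exp (-((s - c) / W) ^ 2)) =
        ∫⁻ x : ℝ, ENNReal.ofReal (Real.exp (-(1 / W ^ 2) * x ^ 2)) := by
      intro s
      rw [← lintegral_sub_left_eq_self
        (fun x : ℝ => ENNReal.ofReal (Real.exp (-(1 / W ^ 2) * x ^ 2))) s]
      refine lintegral_congr fun c => ?_
      congr 2
      rw [div_pow]
      ring
    have h1 : JJ W F ≤ (∫⁻ s, ENNReal.ofReal (F s)) * ∫⁻ c, Ic c := by
      rw [← lintegral_const_mul _ hIm]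
      apply lintegral_mono
      intro c
      show Ic c ^ 2 ≤ _
      rw [sq]
      exact mul_le_mul_left (hIle c) _
    have h2 : ∫⁻ c, Ic c = (∫⁻ s, ENNReal.ofReal (F s)) *
        ∫⁻ x : ℝ, ENNReal.ofReal (Real.exp (-(1 / W ^ 2) * x ^ 2)) := by
      rw [hIc]
      rw [lintegral_lintegral_swap (meas_FE hm W).aemeasurable]
      rw [← lintegral_mul_const' _ _ hg.ne]
      refine lintegral_congr fun s => ?_
      rw [← hKs s, ← lintegral_const_mul']
      · refine lintegral_congr fun c => ?_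
        rw [ENNReal.ofReal_mul (h0 s)]
      · exact ENNReal.ofReal_ne_top
    refine ne_top_of_le_ne_top ?_ h1
    rw [h2]
    exact ENNReal.mul_ne_top hI0.ne (ENNReal.mul_ne_top hI0.ne hg.ne)
  refine ⟨?_, hfin⟩
  unfold NQ
  congr 1
  have h1 : ∀ c, ∫ s, F s * Real.exp (-((s - c) / W) ^ 2) = (Ic c).toReal := by
    intro c
    rw [integral_eq_lintegral_of_nonneg_ae]
    · exact Filter.Eventually.of_forall fun s => mul_nonneg (h0 s) (Real.exp_nonneg _)
    · apply Measurable.aestronglyMeasurable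
      apply hm.mul
      apply Continuous.measurable
      fun_prop
  simp only [h1]
  rw [integral_eq_lintegral_of_nonneg_ae]
  · unfold JJ
    congr 1
    refine lintegral_congr fun c => ?_
    rw [ENNReal.ofReal_pow ENNReal.toReal_nonneg, ENNReal.ofReal_toReal]
    exact ne_top_of_le_ne_top hI0.ne (hIle c)
  · exact Filter.Eventually.of_forall fun c => sq_nonneg _
  · exact (hIm.ennreal_toReal.pow_const 2).aestronglyMeasurable

/-- tail of the kernel -/
private theorem ker_int {R : ℝ} (hR : 0 < R) :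
    ∫⁻ ξ : ℝ, ENNReal.ofReal (2 * (1 + (ξ / R) ^ 2)⁻¹) ≤ ENNReal.ofReal (7 * R) := by
  have h1 : Integrable fun ξ : ℝ => 2 * (1 + (ξ / R) ^ 2)⁻¹ :=
    (integrable_inv_one_add_sq.comp_div hR.ne').const_mul 2
  rw [← ofReal_integral_eq_lintegral_ofReal h1
    (Filter.Eventually.of_forall fun ξ => by positivity)]
  apply ENNReal.ofReal_le_ofReal
  rw [integral_const_mul, Measure.integral_comp_div (fun x : ℝ => (1 + x ^ 2)⁻¹) R,
    integral_univ_inv_one_add_sq, abs_of_pos hR, smul_eq_mul]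
  nlinarith [Real.pi_lt_d2]

/-- bound of the kernel outside `[-R, R]` -/
private theorem ker_tail {K : ℝ → ℂ} {C R : ℝ} (hC : 0 < C) (hR : 1 ≤ R)
    (hKC : ∀ ξ, ‖K ξ‖ ≤ C / (1 + ξ ^ 4)) :
    ∫⁻ ξ : ℝ, (if R < |ξ| then ENNReal.ofReal ‖K ξ‖ else 0) ≤ ENNReal.ofReal (7 * C / R ^ 3) := by
  have hR0 : 0 < R := by linarith
  have h1 : ∀ ξ : ℝ, (if R < |ξ| then ENNReal.ofReal ‖K ξ‖ else 0) ≤
      ENNReal.ofReal (C / R ^ 4) * ENNReal.ofReal (2 * (1 + (ξ / R) ^ 2)⁻¹) := by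
    intro ξ
    split_ifs with h
    · rw [← ENNReal.ofReal_mul (by positivity)]
      apply ENNReal.ofReal_le_ofReal
      refine (hKC ξ).trans ?_
      have hξ : R ^ 2 < ξ ^ 2 := by
        rw [← sq_abs ξ]
        exact pow_lt_pow_left₀ h hR0.le (by norm_num)
      have e1 : C / R ^ 4 * (2 * (1 + (ξ / R) ^ 2)⁻¹) = C * (2 / (R ^ 2 * (R ^ 2 + ξ ^ 2))) := by
        field_simp
      rw [e1, div_eq_mul_inv, inv_eq_one_div]
      apply mul_le_mul_of_nonneg_left _ hC.le
      rw [div_le_div_iff₀ (by positivity) (by positivity)]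
      nlinarith [mul_pos hR0 hR0, sq_nonneg (ξ ^ 2), mul_lt_mul_of_pos_right hξ
        (show (0 : ℝ) < ξ ^ 2 by nlinarith [mul_pos hR0 hR0])]
    · exact zero_le
  refine (lintegral_mono h1).trans ?_
  rw [lintegral_const_mul' _ _ ENNReal.ofReal_ne_top]
  refine (mul_le_mul_right (ker_int hR0) _).trans ?_
  rw [← ENNReal.ofReal_mul (by positivity)]
  apply ENNReal.ofReal_le_ofReal
  apply le_of_eq
  field_simp

private theorem ker_all {K : ℝ → ℂ} {C : ℝ} (hC : 0 < C)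
    (hKC : ∀ ξ, ‖K ξ‖ ≤ C / (1 + ξ ^ 4)) :
    ∫⁻ ξ : ℝ, ENNReal.ofReal ‖K ξ‖ ≤ ENNReal.ofReal (7 * C) := by
  have h1 : ∀ ξ : ℝ, ENNReal.ofReal ‖K ξ‖ ≤
      ENNReal.ofReal C * ENNReal.ofReal (2 * (1 + (ξ / 1) ^ 2)⁻¹) := by
    intro ξ
    rw [← ENNReal.ofReal_mul hC.le]
    apply ENNReal.ofReal_le_ofReal
    refine (hKC ξ).trans ?_
    rw [div_eq_mul_inv]
    apply mul_le_mul_of_nonneg_left _ hC.le
    rw [div_one, inv_eq_one_div, inv_eq_one_div, ← mul_div_assoc, mul_one]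
    rw [div_le_div_iff₀ (by positivity) (by positivity)]
    nlinarith [sq_nonneg (ξ ^ 2 - 1), sq_nonneg ξ]
  refine (lintegral_mono h1).trans ?_
  rw [lintegral_const_mul' _ _ ENNReal.ofReal_ne_top]
  refine (mul_le_mul_right (ker_int one_pos) _).trans ?_
  rw [← ENNReal.ofReal_mul hC.le]
  apply ENNReal.ofReal_le_ofReal
  linarith

private theorem meas_rg {f : ℝ → ℂ} (hf : Continuous f) (a b : ℝ) :
    Measurable fun z : ℝ × ℝ => rg a b (fun t => f (t - z.1)) z.2 := by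
  unfold rg
  apply Measurable.ite
  · apply MeasurableSet.inter
    · exact measurableSet_le measurable_const (measurable_snd.abs)
    · exact measurableSet_le (measurable_snd.abs) measurable_const
  · apply Continuous.measurable
    fun_prop
  · exact measurable_const

private theorem main_ineq {K f : ℝ → ℂ} (hK : Continuous K) (hf : Continuous f) (W a b : ℝ) :
    JJ W (rg a b (fun t => ∫ ξ : ℝ, K ξ * f (t - ξ))) ≤
      (∫⁻ ξ : ℝ, ENNReal.ofReal ‖K ξ‖) *
        ∫⁻ ξ : ℝ, ENNReal.ofReal ‖K ξ‖ * JJ W (rg a b (fun t => f (t - ξ))) := by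
  set k : ℝ → ℝ≥0∞ := fun ξ => ENNReal.ofReal ‖K ξ‖ with hk
  have hkm : Measurable k := (hK.norm.measurable).ennreal_ofReal
  set G : ℝ → ℝ → ℝ≥0∞ := fun ξ c =>
    ∫⁻ t, ENNReal.ofReal (rg a b (fun t => f (t - ξ)) t * Real.exp (-((t - c) / W) ^ 2)) with hG
  have hrg := meas_rg hf a b
  have hm3 : Measurable fun z : (ℝ × ℝ) × ℝ =>
      ENNReal.ofReal (rg a b (fun t => f (t - z.1.1)) z.2 * Real.exp (-((z.2 - z.1.2) / W) ^ 2)) := by
    apply Measurable.ennreal_ofReal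
    apply Measurable.mul
    · exact hrg.comp ((measurable_fst.comp measurable_fst).prodMk measurable_snd)
    · apply Continuous.measurable
      fun_prop
  have hGm : Measurable fun z : ℝ × ℝ => G z.1 z.2 := hm3.lintegral_prod_right'
  have hstep : ∀ c : ℝ, ∫⁻ t, ENNReal.ofReal (rg a b (fun t => ∫ ξ : ℝ, K ξ * f (t - ξ)) t *
      Real.exp (-((t - c) / W) ^ 2)) ≤ ∫⁻ ξ, k ξ * G ξ c := by
    intro c
    have hpt : ∀ t : ℝ, ENNReal.ofReal (rg a b (fun t => ∫ ξ : ℝ, K ξ * f (t - ξ)) t *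
        Real.exp (-((t - c) / W) ^ 2)) ≤ ∫⁻ ξ, k ξ *
          ENNReal.ofReal (rg a b (fun t => f (t - ξ)) t * Real.exp (-((t - c) / W) ^ 2)) := by
      intro t
      unfold rg
      split_ifs with h
      · rw [ENNReal.ofReal_mul (norm_nonneg _), ofReal_norm]
        refine (mul_le_mul_left (enorm_integral_le_lintegral_enorm _) _).trans ?_
        rw [← lintegral_mul_const' _ _ ENNReal.ofReal_ne_top]
        apply lintegral_mono
        intro ξ
        simp only
        rw [enorm_mul, ENNReal.ofReal_mul (norm_nonneg _), ← ofReal_norm (K ξ),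
          ← ofReal_norm (f (t - ξ)), mul_assoc]
      · rw [zero_mul, ENNReal.ofReal_zero]
        exact zero_le
    refine (lintegral_mono hpt).trans ?_
    rw [lintegral_lintegral_swap]
    · apply lintegral_mono
      intro ξ
      simp only
      rw [lintegral_const_mul' _ _ ENNReal.ofReal_ne_top]
    · apply Measurable.aemeasurable
      have q1 : Measurable fun z : ℝ × ℝ => k z.2 := hkm.comp measurable_snd
      have q2 : Measurable fun z : ℝ × ℝ => rg a b (fun t => f (t - z.2)) z.1 :=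
        hrg.comp (measurable_snd.prodMk measurable_fst)
      have q3 : Measurable fun z : ℝ × ℝ => Real.exp (-((z.1 - c) / W) ^ 2) := by
        apply Continuous.measurable
        fun_prop
      exact q1.mul (q2.mul q3).ennreal_ofReal
  calc JJ W (rg a b (fun t => ∫ ξ : ℝ, K ξ * f (t - ξ)))
      ≤ ∫⁻ c, (∫⁻ ξ, k ξ * G ξ c) ^ 2 := by
        unfold JJ
        apply lintegral_mono
        intro c
        exact pow_le_pow_left₀ zero_le (hstep c) 2
    _ ≤ ∫⁻ c, (∫⁻ ξ, k ξ) * ∫⁻ ξ, k ξ * G ξ c ^ 2 := by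
        apply lintegral_mono
        intro c
        exact csw hkm (hGm.comp (measurable_id.prodMk measurable_const))
    _ = (∫⁻ ξ, k ξ) * ∫⁻ c, ∫⁻ ξ, k ξ * G ξ c ^ 2 := by
        rw [lintegral_const_mul]
        apply Measurable.lintegral_prod_right'
          (f := fun z : ℝ × ℝ => k z.2 * G z.2 z.1 ^ 2)
        exact (hkm.comp measurable_snd).mul
          ((hGm.comp (measurable_snd.prodMk measurable_fst)).pow_const 2)
    _ = (∫⁻ ξ, k ξ) * ∫⁻ ξ, ∫⁻ c, k ξ * G ξ c ^ 2 := by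
        rw [lintegral_lintegral_swap]
        exact ((hkm.comp measurable_snd).mul
          ((hGm.comp (measurable_snd.prodMk measurable_fst)).pow_const 2)).aemeasurable
    _ = _ := by
        congr 1
        refine lintegral_congr fun ξ => ?_
        rw [lintegral_const_mul' _ _ ENNReal.ofReal_ne_top]
        rfl

theorem hNQC : StNfb → StNqp → StNqc := by
  intro hNfb _
  refine ⟨49, by norm_num, ?_⟩
  intro W C a b M R₁ R₂ M₁ M₂ M₃ K f hW hC hK hKC hf hfM hR₁ hR₁₂ hM₁ hM₂ hM₃ h1 h2 h3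
  have hM0 : 0 ≤ M := (norm_nonneg _).trans (hfM 0)
  have hW0 : 0 < W := by linarith
  have hR₂ : 1 ≤ R₂ := hR₁.trans hR₁₂
  -- the convolution is continuous
  have hbd : Integrable fun ξ : ℝ => C * (2 * (1 + ξ ^ 2)⁻¹) * M :=
    ((integrable_inv_one_add_sq.const_mul 2).const_mul C).mul_const M
  have hconv : Continuous fun t : ℝ => ∫ ξ : ℝ, K ξ * f (t - ξ) := by
    apply continuous_of_dominated (bound := fun ξ : ℝ => C * (2 * (1 + ξ ^ 2)⁻¹) * M)
    · intro t
      apply Continuous.aestronglyMeasurable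
      fun_prop
    · intro t
      refine Filter.Eventually.of_forall fun ξ => ?_
      rw [norm_mul]
      refine mul_le_mul ((hKC ξ).trans ?_) (hfM _) (norm_nonneg _) (by positivity)
      rw [div_eq_mul_inv]
      apply mul_le_mul_of_nonneg_left _ hC.le
      rw [inv_eq_one_div, inv_eq_one_div, ← mul_div_assoc, mul_one]
      rw [div_le_div_iff₀ (by positivity) (by positivity)]
      nlinarith [sq_nonneg (ξ ^ 2 - 1), sq_nonneg ξ]
    · exact hbd
    · refine Filter.Eventually.of_forall fun ξ => ?_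
      fun_prop
  have hNF₀ : NF (rg a b (fun t : ℝ => ∫ ξ : ℝ, K ξ * f (t - ξ))) :=
    hNfb.2.2.2.2.1 a b _ hconv
  have hNFξ : ∀ ξ : ℝ, NF (rg a b (fun t => f (t - ξ))) := fun ξ =>
    hNfb.2.2.2.2.1 a b _ (hf.comp (continuous_id.sub continuous_const))
  have hJ : ∀ (ξ m : ℝ), NQ W (rg a b (fun t => f (t - ξ))) ≤ m →
      JJ W (rg a b (fun t => f (t - ξ))) ≤ ENNReal.ofReal (W * m) := by
    intro ξ m hm
    obtain ⟨e1, e2⟩ := NQ_eq (hNFξ ξ) hW
    rw [← ENNReal.ofReal_toReal e2]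
    apply ENNReal.ofReal_le_ofReal
    rw [e1, one_div, inv_mul_le_iff₀ hW0] at hm
    exact hm
  set k : ℝ → ℝ≥0∞ := fun ξ => ENNReal.ofReal ‖K ξ‖ with hk
  have hkm : Measurable k := (hK.norm.measurable).ennreal_ofReal
  have hitem : ∀ R : ℝ, Measurable fun ξ : ℝ => if R < |ξ| then ENNReal.ofReal ‖K ξ‖ else 0 := by
    intro R
    exact Measurable.ite (measurableSet_lt measurable_const measurable_id.abs) hkm measurable_const
  have hsum : ∫⁻ ξ : ℝ, k ξ * JJ W (rg a b (fun t => f (t - ξ))) ≤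
      ENNReal.ofReal (W * M₁) * ENNReal.ofReal (7 * C) +
      ENNReal.ofReal (W * M₂) * ENNReal.ofReal (7 * C / R₁ ^ 3) +
      ENNReal.ofReal (W * M₃) * ENNReal.ofReal (7 * C / R₂ ^ 3) := by
    have hpt : ∀ ξ : ℝ, k ξ * JJ W (rg a b (fun t => f (t - ξ))) ≤
        ENNReal.ofReal (W * M₁) * k ξ +
        ENNReal.ofReal (W * M₂) * (if R₁ < |ξ| then ENNReal.ofReal ‖K ξ‖ else 0) +
        ENNReal.ofReal (W * M₃) * (if R₂ < |ξ| then ENNReal.ofReal ‖K ξ‖ else 0) := by
      intro ξ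
      rcases le_or_gt |ξ| R₁ with hc | hc
      · have e1 := hJ ξ M₁ (h1 ξ hc)
        calc k ξ * JJ W (rg a b (fun t => f (t - ξ))) ≤ k ξ * ENNReal.ofReal (W * M₁) :=
              mul_le_mul_right e1 _
          _ = ENNReal.ofReal (W * M₁) * k ξ := mul_comm _ _
          _ ≤ _ := by
            rw [add_assoc]
            exact le_self_add
      · rcases le_or_gt |ξ| R₂ with hc2 | hc2
        · have e1 := hJ ξ M₂ (h2 ξ hc hc2)
          rw [if_pos hc]
          calc k ξ * JJ W (rg a b (fun t => f (t - ξ))) ≤ k ξ * ENNReal.ofReal (W * M₂) :=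
                mul_le_mul_right e1 _
            _ = ENNReal.ofReal (W * M₂) * k ξ := mul_comm _ _
            _ ≤ _ := by
              refine le_trans ?_ le_self_add
              exact le_add_self
        · have e1 := hJ ξ M₃ (h3 ξ hc2)
          rw [if_pos hc2]
          calc k ξ * JJ W (rg a b (fun t => f (t - ξ))) ≤ k ξ * ENNReal.ofReal (W * M₃) :=
                mul_le_mul_right e1 _
            _ = ENNReal.ofReal (W * M₃) * k ξ := mul_comm _ _
            _ ≤ _ := le_add_self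
    refine (lintegral_mono hpt).trans ?_
    rw [lintegral_add_right _ ((hitem R₂).const_mul _), lintegral_add_right _
      ((hitem R₁).const_mul _), lintegral_const_mul' _ _ ENNReal.ofReal_ne_top,
      lintegral_const_mul' _ _ ENNReal.ofReal_ne_top, lintegral_const_mul' _ _ ENNReal.ofReal_ne_top]
    gcongr
    · exact ker_all hC hKC
    · exact ker_tail hC hR₁ hKC
    · exact ker_tail hC hR₂ hKC
  obtain ⟨e1, e2⟩ := NQ_eq hNF₀ hW
  have hfinal : JJ W (rg a b (fun t => ∫ ξ : ℝ, K ξ * f (t - ξ))) ≤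
      ENNReal.ofReal (7 * C * (W * M₁ * (7 * C) + W * M₂ * (7 * C / R₁ ^ 3) +
        W * M₃ * (7 * C / R₂ ^ 3))) := by
    refine (main_ineq hK hf W a b).trans ?_
    refine (mul_le_mul' (ker_all hC hKC) hsum).trans (le_of_eq ?_)
    have p1 : 0 ≤ W * M₁ * (7 * C) := by positivity
    have p2 : 0 ≤ W * M₂ * (7 * C / R₁ ^ 3) := by positivity
    have p3 : 0 ≤ W * M₃ * (7 * C / R₂ ^ 3) := by positivity
    rw [ENNReal.ofReal_mul (by positivity : (0 : ℝ) ≤ 7 * C), ENNReal.ofReal_add (by positivity) p3,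
      ENNReal.ofReal_add p1 p2, ENNReal.ofReal_mul (by positivity : (0 : ℝ) ≤ W * M₁),
      ENNReal.ofReal_mul (by positivity : (0 : ℝ) ≤ W * M₂),
      ENNReal.ofReal_mul (by positivity : (0 : ℝ) ≤ W * M₃)]
  rw [e1]
  have hreal := ENNReal.toReal_mono ENNReal.ofReal_ne_top hfinal
  rw [ENNReal.toReal_ofReal (by positivity)] at hreal
  calc 1 / W * (JJ W (rg a b (fun t => ∫ ξ : ℝ, K ξ * f (t - ξ)))).toReal
      ≤ 1 / W * (7 * C * (W * M₁ * (7 * C) + W * M₂ * (7 * C / R₁ ^ 3) +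
        W * M₃ * (7 * C / R₂ ^ 3))) := by gcongr
    _ = 49 * C ^ 2 * (M₁ + M₂ / R₁ ^ 3 + M₃ / R₂ ^ 3) := by
      field_simp
      ring

end Pool.Agent.Helper47.GW
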